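import Pool.Agent.W580.SH.StmA

/-! SHA-CTX and SHA-ABAD (helper580). -/

set_option autoImplicit false

namespace Pool.Agent.W688.SH

open Pool.Agent.W580.SH

namespace ABAD

theorem main (hX : S_CTX) (h4 : S_AB4) (hF : S_ABFIN) : S_ABAD := by
  rintro R _ _ S t hsym hts hco ⟨i, hi⟩
  by_cases hb : Bad (DSet S i (1 / 2))
  · obtain ⟨f, v, κ, hc⟩ := hX R S t i hsym hts hco hi hb
    obtain ⟨v', a0, h2⟩ := h4 R S t f v κ hc
    exact ⟨κ a0, h2.ta, hF R S t f v' κ a0 hsym h2⟩
  · exact ⟨i, hi, hb⟩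

end ABAD

namespace CTX

variable {R : Type} [DecidableEq R] {S : Set (R → ℝ)} {i : R}

/-- elements of `DSet` in terms of the unit vector -/
theorem mem_D {u : R → ℝ} (h : u ∈ DSet S i (1 / 2)) :
    u i = 0 ∧ u + (1 / 2 : ℝ) • (Pi.single i 1 : R → ℝ) ∈ S ∧
      u - (1 / 2 : ℝ) • (Pi.single i 1 : R → ℝ) ∈ S := by
  obtain ⟨h1, h2, h3⟩ := h
  refine ⟨h1, ?_, ?_⟩
  · convert h2 using 1
    funext j
    by_cases hj : j = i
    · subst hj
      simp [h1]
    · simp [hj]
  · convert h3 using 1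
    funext j
    by_cases hj : j = i
    · subst hj
      simp [h1]
      norm_num
    · simp [hj]

theorem neg_D (hsym : ∀ x ∈ S, -x ∈ S) {u : R → ℝ} (h : u ∈ DSet S i (1 / 2)) :
    -u ∈ DSet S i (1 / 2) := by
  obtain ⟨h1, h2, h3⟩ := h
  refine ⟨by simp [h1], ?_, ?_⟩
  · have h4 := hsym _ h3
    convert h4 using 1
    funext j
    by_cases hj : j = i
    · subst hj
      simp
      norm_num
    · simp [hj]
  · have h4 := hsym _ h2
    convert h4 using 1
    funext j
    by_cases hj : j = i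
    · subst hj
      simp
      norm_num
    · simp [hj]

/-- the four vectors -/
theorem four (hsym : ∀ x ∈ S, -x ∈ S) {a b : R → ℝ} (ha : a ∈ DSet S i (1 / 2))
    (hb : b ∈ DSet S i (1 / 2)) (σ τ : ℝ) (hσ : σ = 1 ∨ σ = -1) (hτ : τ = 1 ∨ τ = -1) :
    σ • ((1 / 2 : ℝ) • ((Pi.single i 1 : R → ℝ) + (a + b))) + τ • ((1 / 2 : ℝ) • (a - b)) ∈ S ∧
    σ • ((1 / 2 : ℝ) • ((Pi.single i 1 : R → ℝ) - (a + b))) + τ • ((1 / 2 : ℝ) • (a - b)) ∈ S := by
  obtain ⟨-, a1, a2⟩ := mem_D ha
  obtain ⟨-, b1, b2⟩ := mem_D hb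
  rcases hσ with rfl | rfl <;> rcases hτ with rfl | rfl
  · refine ⟨?_, ?_⟩
    · convert a1 using 1; module
    · convert hsym _ b2 using 1; module
  · refine ⟨?_, ?_⟩
    · convert b1 using 1; module
    · convert hsym _ a2 using 1; module
  · refine ⟨?_, ?_⟩
    · convert hsym _ b1 using 1; module
    · convert a2 using 1; module
  · refine ⟨?_, ?_⟩
    · convert hsym _ a1 using 1; module
    · convert b2 using 1; module

theorem main (hM : S_MINOR) : S_CTX := by
  rintro R _ _ S t i hsym hts hco hi ⟨x, y, z, w, hx, hy, hz, hw, hxyz, hxyw, hlin⟩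
  obtain ⟨r, hr⟩ := (hM R 4 ![x, y, z, w]).1 hlin
  have hx0 := (mem_D hx).1
  have hy0 := (mem_D hy).1
  have hz0 := (mem_D hz).1
  have hw0 := (mem_D hw).1
  have hri : ∀ a, r a ≠ i := by
    intro a ha
    apply hr
    unfold mn
    refine Matrix.det_eq_zero_of_row_eq_zero a fun j => ?_
    rw [Matrix.of_apply, ha]
    fin_cases j
    · exact hx0
    · exact hy0
    · exact hz0
    · exact hw0
  let e : R → ℝ := Pi.single i 1
  have he1 : e i = 1 := Pi.single_eq_same i 1
  have he0 : ∀ a, e (r a) = 0 := fun a => Pi.single_eq_of_ne (hri a) 1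
  let f : Fin 2 → (R → ℝ) := ![(1 / 2 : ℝ) • (e + (x + y)), (1 / 2 : ℝ) • (e - (x + y))]
  let v : Fin 3 → (R → ℝ) := ![(1 / 2 : ℝ) • (x - y), (1 / 2 : ℝ) • ((x + y + z) - (-z)),
    (1 / 2 : ℝ) • ((x + y + w) - (-w))]
  refine ⟨f, v, (Fin.cons i r : Fin 5 → R), hts, hco, ?_, ?_, ⟨0, hi⟩⟩
  · intro a k σ τ hσ hτ
    have h0 := four hsym hx hy σ τ hσ hτ
    have h1 := four hsym hxyz (neg_D hsym hz) σ τ hσ hτ
    have h2 := four hsym hxyw (neg_D hsym hw) σ τ hσ hτ
    have e1 : x + y + z + -z = x + y := by abel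
    have e2 : x + y + w + -w = x + y := by abel
    rw [e1] at h1
    rw [e2] at h2
    fin_cases a <;> fin_cases k
    · exact h0.1
    · exact h1.1
    · exact h2.1
    · exact h0.2
    · exact h1.2
    · exact h2.2
  · intro hdet
    unfold mn at hdet
    obtain ⟨g, hg, hMg⟩ := Matrix.exists_mulVec_eq_zero_iff.2 hdet
    apply hg
    have row0 := congrFun hMg 0
    rw [Matrix.mulVec, dotProduct, Fin.sum_univ_five] at row0
    simp only [Matrix.of_apply, Fin.cons_zero, fv, f, v, Matrix.cons_val, Pi.smul_apply,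
      Pi.add_apply, Pi.sub_apply, Pi.neg_apply, Pi.zero_apply, smul_eq_mul, he1, hx0, hy0, hz0,
      hw0] at row0
    have rows : ∀ a : Fin 4, (![x, y, z, w] 0 (r a)) * ((g 0 - g 1 + g 2 + g 3 + g 4) / 2) +
        (![x, y, z, w] 1 (r a)) * ((g 0 - g 1 - g 2 + g 3 + g 4) / 2) +
        (![x, y, z, w] 2 (r a)) * g 3 + (![x, y, z, w] 3 (r a)) * g 4 = 0 := by
      intro a
      have h := congrFun hMg a.succ
      rw [Matrix.mulVec, dotProduct, Fin.sum_univ_five] at h
      simp only [Matrix.of_apply, Fin.cons_succ, fv, f, v, Matrix.cons_val, Pi.smul_apply,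
        Pi.add_apply, Pi.sub_apply, Pi.neg_apply, Pi.zero_apply, smul_eq_mul, he0 a] at h
      simp only [Matrix.cons_val]
      linear_combination h
    have hz4 := Matrix.eq_zero_of_mulVec_eq_zero hr
      (v := ![(g 0 - g 1 + g 2 + g 3 + g 4) / 2, (g 0 - g 1 - g 2 + g 3 + g 4) / 2, g 3, g 4])
      (by
        funext a
        rw [Matrix.mulVec, dotProduct, Fin.sum_univ_four]
        have := rows a
        simp only [Matrix.of_apply, Matrix.cons_val, Pi.zero_apply] at this ⊢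
        exact this)
    have q0 := congrFun hz4 0
    have q1 := congrFun hz4 1
    have q2 := congrFun hz4 2
    have q3 := congrFun hz4 3
    simp only [Matrix.cons_val, Pi.zero_apply] at q0 q1 q2 q3
    funext j
    fin_cases j
    · show g 0 = 0
      linarith
    · show g 1 = 0
      linarith
    · show g 2 = 0
      linarith
    · exact q2
    · exact q3

end CTX

end Pool.Agent.W688.SH
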